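import Pool.Agent.Results.MP_50a406_nt.RandomPrimesAllExponents
import Pool.Agent.X174.WinQ
import Pool.Agent.X174.WinVec

/-!
# The Fermat equations of all exponents over a quadratic field: no solutions with conductors in windows

Let `K` be a quadratic field. For a solution of `x ^ n + y ^ n = z ^ n` in nonzero elements of `K` let `N (x : y : z)` be its
conductor, the product of the norms of the primes at which the absolute values of `x`, `y`, `z` are not all equal.

**Theorem.** There is `ν > 0`, which depends on `K` only, such that for every sequence `v ≥ 1` of exponent of convergence at most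
`τ` (for `v_i = (i + 1) ^ b` this is `1 / b`, for `v_i = b ^ i` it is `0`) and every `ρ < 1` there is a set `E` of real numbers of
Hausdorff dimension at most `(2 / 3 - ν + τ) / (1 - ρ)` such that for every `α` outside `E` there is `i₀` such that for ALL
exponents `n ≥ 4` no nontrivial solution of `x ^ n + y ^ n = z ^ n` in `K` satisfies `|N (x : y : z) - α v_i| ≤ v_i ^ ρ` for some
`i ≥ i₀`.

For `τ = 0` and `ρ < 1 / 3 + ν` this holds for almost all `α`.
-/

set_option autoImplicit false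

namespace Pool.Agent.Results.MP_50a406_nt.ConductorsInWindows

open NumberField IsDedekindDomain
open Pool.Agent.X61.RI (RootOfUnity)
open RandomPrimesAllExponents (supp norm mem_sp3 mem_supp supp_scale)

/-- the exponent of convergence of the sequence `v` is at most `τ` -/
def ExpLe (v : ℕ → ℝ) (τ : ℝ) : Prop := ∀ t : ℝ, τ < t → Summable (fun n : ℕ => (v n) ^ (-t))

/-- the conductor of `(a_0 : a_1 : a_2)`: the product of the norms of the primes at which the absolute values of the coordinates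
are not all equal -/
noncomputable def conductor {K : Type} [Field K] [NumberField K] (a : Fin 3 → K) : ℝ :=
  ∏ᶠ (v : HeightOneSpectrum (𝓞 K)) (_ : v ∈ supp a), norm v

open Pool.Agent.H691R3 Pool.Agent.TH876.Loc Pool.Agent.Y911.RR
open Pool.Agent.X61.RI (sp3 qow_ne UnitAll tr)

lemma fin_count {Q : Type} (S : Set Q) (B : ℝ) (h : ∀ F : Finset Q, (↑F ⊆ S) → (F.card : ℝ) ≤ B) :
    S.Finite ∧ (S.ncard : ℝ) ≤ B := by
  have hfin : S.Finite := by
    by_contra hinf
    obtain ⟨F, hF, hc⟩ := Set.Infinite.exists_subset_card_eq hinf (⌈|B|⌉₊ + 1)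
    have h1 := h F hF
    rw [hc] at h1
    push_cast at h1
    have h2 := Nat.le_ceil |B|
    have h3 := le_abs_self B
    linarith
  refine ⟨hfin, ?_⟩
  rw [Set.ncard_eq_toFinset_card _ hfin]
  exact h _ (by simp)

section
variable {K : Type} [Field K] [NumberField K]

theorem conductor_eq {n : ℕ} (hn : 4 ≤ n) {x y : K} (hx : x ≠ 0) (hy : y ≠ 0)
    (h : x ^ n + y ^ n = 1) : conductor ![x, y, 1] = nn (sp3 ⟨x ^ n, qow_ne hx hy h⟩) := by
  have e : nn (sp3 ⟨x ^ n, qow_ne hx hy h⟩) = ∏ v ∈ sp3 ⟨x ^ n, qow_ne hx hy h⟩, norm v := rfl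
  rw [e, ← finprod_mem_coe_finset]
  unfold conductor
  refine finprod_mem_congr ?_ fun v _ => rfl
  ext v
  rw [mem_supp, Finset.mem_coe, mem_sp3 hn hx hy h]

theorem conductor_scale {a b c : K} (hc : c ≠ 0) : conductor ![a / c, b / c, 1] = conductor ![a, b, c] := by
  unfold conductor
  rw [supp_scale hc]

end

/-- the points with height larger than the conductor -/
abbrev Pts (K : Type) [Field K] [NumberField K] : Type :=
  {x : {x : K // x ≠ 0 ∧ x ≠ 1} // 1 * Real.log (nn (sp3 x)) < Height.logHeight (tr x.1)}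

/-- **No conductors in windows.** For every quadratic field `K` there is `ν` with `0 < ν ≤ 1 / 3` such that for every sequence
`v ≥ 1` of exponent of convergence at most `τ ≥ 0` and every `ρ < 1` there is a set `E ⊂ ℝ` of Hausdorff dimension at most
`(2 / 3 - ν + τ) / (1 - ρ)` such that for every `α` outside `E` there is `i₀` such that for all `i ≥ i₀`, all `n ≥ 4` and all
nonzero `x`, `y`, `z` in `K` with `x ^ n + y ^ n = z ^ n` either `x / z` and `y / z` are roots of unity or the conductor `N` of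
`(x : y : z)` satisfies `|N - α v_i| > v_i ^ ρ`. The sequences `v_i = (i + 1) ^ b` and `v_i = b ^ i` have exponent of convergence
at most `1 / b` and `0`. -/
theorem result :
    (∀ (K : Type) [Field K] [NumberField K], Module.finrank ℚ K = 2 → ∃ ν : ℝ, 0 < ν ∧ ν ≤ 1 / 3 ∧
      ∀ (v : ℕ → ℝ) (τ ρ : ℝ), (∀ i, 1 ≤ v i) → 0 ≤ τ → ExpLe v τ → ρ < 1 →
      ∃ E : Set ℝ, dimH E ≤ ENNReal.ofReal ((2 / 3 - ν + τ) / (1 - ρ)) ∧ ∀ α : ℝ, α ∉ E →
        ∃ i₀ : ℕ, ∀ i : ℕ, i₀ ≤ i → ∀ (n : ℕ) (x y z : K), 4 ≤ n → x ≠ 0 → y ≠ 0 → z ≠ 0 → x ^ n + y ^ n = z ^ n →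
          (RootOfUnity (x / z) ∧ RootOfUnity (y / z)) ∨ (v i) ^ ρ < |conductor ![x, y, z] - α * v i|) ∧
    (∀ b : ℝ, 0 < b → ExpLe (fun n : ℕ => ((n : ℝ) + 1) ^ b) (1 / b)) ∧
    (∀ b : ℝ, 1 < b → ExpLe (fun n : ℕ => b ^ n) 0) := by
  classical
  refine ⟨?_, fun κ hκ => Pool.Agent.Y854.GM.expLe_pow κ hκ, fun b hb => Pool.Agent.Y854.GM.expLe_geom b hb⟩
  intro K _ _ h2
  obtain ⟨ν, hν, hν1, hexc⟩ := Pool.Agent.X61.RI.exc3 (K := K) (M := 1) (by norm_num)
  refine ⟨ν, hν, hν1, fun v τ ρ hv hτ hE hρ => ?_⟩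
  obtain ⟨E, h1, h3⟩ := Pool.Agent.X174.winFamE (κ := Unit) (Q := Pts K) (fun q _ => nn (sp3 q.1))
    (fun T => {q : Pts K | nn (sp3 q.1) ≤ T}) (s := 2 / 3 - ν) (by linarith) (by
      intro ε hε
      obtain ⟨D, hD, hb⟩ := hexc (2 / 3 - ν + ε) (by linarith)
      refine ⟨D, fun T hT => fin_count _ _ fun F hF => ?_⟩
      have hTp : (0 : ℝ) < T := by linarith
      have h4 : ∑ _t ∈ F, T ^ (-(2 / 3 - ν + ε)) ≤ ∑ t ∈ F, (nn (sp3 t.1)) ^ (-(2 / 3 - ν + ε)) := by
        refine Finset.sum_le_sum fun t ht => ?_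
        exact Real.rpow_le_rpow_of_nonpos (nn_pos _) (hF ht) (by linarith)
      have h5 := h4.trans (hb F)
      rw [Finset.sum_const, nsmul_eq_mul, Real.rpow_neg hTp.le] at h5
      have hpos : 0 < T ^ (2 / 3 - ν + ε) := Real.rpow_pos_of_pos hTp _
      rw [← div_eq_mul_inv, div_le_iff₀ hpos] at h5
      exact h5) hv hτ hE hρ
  have hiso : Isometry (fun (x : ℝ) (_ : Unit) => x) := by
    apply Isometry.of_dist_eq
    intro x y
    simp [dist_pi_def, Finset.sup_singleton]
  refine ⟨{x : ℝ | (fun _ : Unit => x) ∈ E}, ?_, fun α hα => ?_⟩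
  · refine le_trans ?_ h1
    rw [← hiso.dimH_image]
    apply dimH_mono
    rintro _ ⟨x, hx, rfl⟩
    exact hx
  obtain ⟨R, hR, hRc⟩ := Pool.Agent.X174.le_of_cube (fun _ : Unit => α)
  obtain ⟨i₀, hi₀⟩ := h3 (fun _ => α) hα R hR
  refine ⟨i₀, fun i hi n x y z hn hx hy hz hxyz => ?_⟩
  have hX : x / z ≠ 0 := div_ne_zero hx hz
  have hY : y / z ≠ 0 := div_ne_zero hy hz
  have hXY : (x / z) ^ n + (y / z) ^ n = 1 := by
    rw [div_pow, div_pow, ← add_div, hxyz, div_self (pow_ne_zero _ hz)]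
  by_cases hne : (sp3 ⟨(x / z) ^ n, qow_ne hX hY hXY⟩).Nonempty
  · right
    by_contra hcon
    rw [not_lt, ← conductor_scale hz, conductor_eq hn hX hY hXY] at hcon
    refine hi₀ i hi ⟨⟨(x / z) ^ n, qow_ne hX hY hXY⟩, Pool.Agent.X61.RI.qow_exc hn hX hY hXY hne⟩ (fun _ => hcon) ?_
    exact (le_abs_self _).trans (hRc (fun _ : Unit => nn (sp3 ⟨(x / z) ^ n, qow_ne hX hY hXY⟩)) (v i) ρ (hv i) hρ
      (fun _ => hcon) ())
  · left
    rw [Finset.not_nonempty_iff_eq_empty] at hne
    have hu : ∀ v : Pr K, v.valuation K (x / z) = 1 ∧ v.valuation K (y / z) = 1 := by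
      intro v
      by_contra hv
      have := (mem_sp3 hn hX hY hXY v).2 hv
      rw [hne] at this
      exact absurd this (Finset.notMem_empty v)
    have hux : UnitAll (x / z) := fun v => (hu v).1
    have huy : UnitAll (y / z) := fun v => (hu v).2
    exact ⟨Pool.Agent.X61.RI.quad_root h2 hX hY hux huy (n := n) (by omega) hXY,
      Pool.Agent.X61.RI.quad_root h2 hY hX huy hux (n := n) (by omega)
        (by rw [add_comm]; exact hXY)⟩

end Pool.Agent.Results.MP_50a406_nt.ConductorsInWindows
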