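import Pool.Agent.X61.RI.FermatQ
import Pool.Agent.X61.RI.Quad

/-!
# The Fermat equations of all exponents over a quadratic field and large random primes

Let `K` be a quadratic field and `T` a random set of primes of `K`: the events `v ∈ T` are
independent and of probability at most `N(v) ^ (-τ)`. (For probabilities `N(v) ^ (-τ)` with `τ ≤ 1`
the set `T` is infinite.) For a solution of `x ^ n + y ^ n = z ^ n` in nonzero elements of `K` let `N`
be the conductor of `(x : y : z)` (the product of the norms of the primes at which the absolute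
values of `x, y, z` are not all equal) and `N_{T,R}` its part composed of the primes of `T` of norm
at least `R`.

There is `ν > 0`, which depends on `K` only, such that for `0 < κ ≤ 1`, `δ ≥ 0` and
`κ τ > 2/3 - ν + δ` there is a constant `C` such that for all `R > 0` with probability at least
`1 - C R ^ (-δ)` for ALL exponents `n ≥ 4` at the same time all nontrivial solutions of
`x ^ n + y ^ n = z ^ n` in `K` satisfy `N_{T,R} < N ^ κ`. In particular (`κ = 1`), with this
probability no nontrivial solution of any exponent `n ≥ 4` is composed of primes of `T` of norm at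
least `R`: for these solutions the answer to the question is positive, for all exponents `n ≥ 5`.

The solutions composed of units are treated separately: in a quadratic field a sum of two `n`-th
powers of units, `n ≥ 3`, is equal to one only if the units are roots of unity.
-/

set_option autoImplicit false

namespace Pool.Agent.Results.MP_50a406_nt.RandomPrimesAllExponents

open NumberField IsDedekindDomain MeasureTheory ProbabilityTheory
open Pool.Agent.X61.RI (RootOfUnity)

section Defs

variable {K : Type} [Field K] [NumberField K]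

/-- the absolute norm of a prime -/
noncomputable def norm (v : HeightOneSpectrum (𝓞 K)) : ℝ := (Ideal.absNorm v.asIdeal : ℝ)

/-- the primes at which the absolute values of the coordinates are not all equal -/
def supp (a : Fin 3 → K) : Set (HeightOneSpectrum (𝓞 K)) :=
  {v | ∃ i j, v.valuation K (a i) ≠ v.valuation K (a j)}

/-- the logarithm of the part of the conductor of `a` composed of the primes of `U` -/
noncomputable def logN (U : Set (HeightOneSpectrum (𝓞 K))) (a : Fin 3 → K) : ℝ :=
  ∑ᶠ (v : HeightOneSpectrum (𝓞 K)) (_ : v ∈ supp a ∩ U), Real.log (norm v)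

end Defs

open Pool.Agent.H691R3 Pool.Agent.TH876.Loc Pool.Agent.Y911.RR
open Pool.Agent.X61.RI (sp3 qow_ne UnitAll)

variable {K : Type} [Field K] [NumberField K]

theorem mem_sp3 {n : ℕ} (hn : 4 ≤ n) {x y : K} (hx : x ≠ 0) (hy : y ≠ 0)
    (h : x ^ n + y ^ n = 1) (v : Pr K) : v ∈ sp3 ⟨x ^ n, qow_ne hx hy h⟩ ↔
      ¬ (v.valuation K x = 1 ∧ v.valuation K y = 1) := by
  have h1 := Pool.Agent.X61.RI.mem_opt v ⟨x ^ n, qow_ne hx hy h⟩
  have hpow : ∀ z : K, v.valuation K (z ^ n) = 1 ↔ v.valuation K z = 1 := by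
    intro z
    rw [val_eq_one, val_eq_one, map_pow]
    exact pow_eq_one_iff_of_nonneg ((fv v).nonneg z) (by omega)
  have e : v.valuation K (x ^ n - 1) = v.valuation K (y ^ n) := by
    rw [← Valuation.map_neg]
    congr 1
    linear_combination -h
  unfold sp3
  rw [h1]
  show ¬ (v.valuation K (x ^ n) = 1 ∧ v.valuation K (x ^ n - 1) = 1) ↔ _
  rw [e, hpow, hpow]

theorem mem_supp {x y : K} (v : Pr K) : v ∈ supp ![x, y, 1] ↔
    ¬ (v.valuation K x = 1 ∧ v.valuation K y = 1) := by
  have e0 : v.valuation K ((![x, y, 1] : Fin 3 → K) 0) = v.valuation K x := rfl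
  have e1 : v.valuation K ((![x, y, 1] : Fin 3 → K) 1) = v.valuation K y := rfl
  have e2 : v.valuation K ((![x, y, 1] : Fin 3 → K) 2) = 1 := map_one _
  constructor
  · rintro ⟨i, j, hij⟩ ⟨h1, h2⟩
    apply hij
    have : ∀ i, v.valuation K ((![x, y, 1] : Fin 3 → K) i) = 1 := by
      intro i
      fin_cases i
      · exact e0.trans h1
      · exact e1.trans h2
      · exact e2
    rw [this i, this j]
  · intro h
    by_cases h1 : v.valuation K x = 1
    · refine ⟨1, 2, ?_⟩
      rw [e1, e2]
      exact fun h2 => h ⟨h1, h2⟩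
    · refine ⟨0, 2, ?_⟩
      rw [e0, e2]
      exact h1

theorem logN_eq {n : ℕ} (hn : 4 ≤ n) {x y : K} (hx : x ≠ 0) (hy : y ≠ 0)
    (h : x ^ n + y ^ n = 1) (U : Set (Pr K)) {s : Finset (Pr K)}
    (hs : ∀ v, v ∈ s ↔ v ∈ sp3 ⟨x ^ n, qow_ne hx hy h⟩ ∧ v ∈ U) :
    logN U ![x, y, 1] = Real.log (nn s) := by
  unfold logN
  rw [Pool.Agent.TH876.KR.log_nn, ← finsum_mem_coe_finset]
  refine finsum_mem_congr ?_ fun v _ => rfl
  ext v
  rw [Set.mem_inter_iff, mem_supp, Finset.mem_coe, hs, mem_sp3 hn hx hy h]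

theorem supp_scale {a b c : K} (hc : c ≠ 0) :
    supp ![a / c, b / c, 1] = supp ![a, b, c] := by
  ext v
  have hv : v.valuation K c ≠ 0 := (Valuation.ne_zero_iff _).2 hc
  have e : ∀ i, v.valuation K ((![a / c, b / c, 1] : Fin 3 → K) i) =
      v.valuation K ((![a, b, c] : Fin 3 → K) i) / v.valuation K c := by
    intro i
    fin_cases i
    · exact map_div₀ _ _ _
    · exact map_div₀ _ _ _
    · show v.valuation K 1 = v.valuation K c / v.valuation K c
      rw [map_one, div_self hv]
  constructor
  · rintro ⟨i, j, hij⟩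
    refine ⟨i, j, fun h => hij ?_⟩
    rw [e, e, h]
  · rintro ⟨i, j, hij⟩
    refine ⟨i, j, fun h => hij ?_⟩
    rw [e, e] at h
    exact (div_left_inj' hv).1 h

theorem logN_scale {a b c : K} (hc : c ≠ 0) (U : Set (Pr K)) :
    logN U ![a / c, b / c, 1] = logN U ![a, b, c] := by
  unfold logN
  rw [supp_scale hc]

/-- **The Fermat equations over a quadratic field and large random primes.** Let `K` be a quadratic
field. There is `ν > 0` such that the following holds for all `τ ≥ 0`, `κ > 0`, `δ ≥ 0` with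
`κ τ - δ > 2/3 - ν`. There is a constant `C`, depending on `K`, `τ`, `κ`, `δ` only, such that for all
independent events `E v` (`v` a prime of `K`) of probability at most `N(v) ^ (-τ)` and all `R > 0`
with probability at least `1 - C R ^ (-δ)` the following holds, where
`T_R = {v | N(v) ≥ R, ω ∈ E v}`: for all `n ≥ 4` and all nonzero `x, y, z` in `K` with
`x ^ n + y ^ n = z ^ n`, either `x / z` and `y / z` are roots of unity, or the part of the conductor
of `(x : y : z)` composed of the primes of `T_R` is smaller than the `κ`-th power of the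
conductor. -/
theorem result (K : Type) [Field K] [NumberField K] (h2 : Module.finrank ℚ K = 2) :
    ∃ ν : ℝ, 0 < ν ∧ ∀ τ κ δ : ℝ, 0 ≤ τ → 0 < κ → 0 ≤ δ → 2 / 3 - ν < κ * τ - δ →
    ∃ C : ℝ, 0 < C ∧ ∀ (Ω : Type) [MeasurableSpace Ω] (μ : Measure Ω)
      (E : HeightOneSpectrum (𝓞 K) → Set Ω), iIndepSet E μ →
      (∀ v, μ (E v) ≤ ENNReal.ofReal (norm v ^ (-τ))) → ∀ R : ℝ, 0 < R →
      μ {ω | ¬ ∀ (n : ℕ) (x y z : K), 4 ≤ n → x ≠ 0 → y ≠ 0 → z ≠ 0 → x ^ n + y ^ n = z ^ n →
        (RootOfUnity (x / z) ∧ RootOfUnity (y / z)) ∨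
        logN {v | R ≤ norm v ∧ ω ∈ E v} ![x, y, z] < κ * logN Set.univ ![x, y, z]} ≤
      ENNReal.ofReal (C * R ^ (-δ)) := by
  classical
  obtain ⟨ν, hν, h⟩ := Pool.Agent.X61.RI.fermat_small K
  refine ⟨ν, hν, fun τ κ δ hτ hκ hδ hθ => ?_⟩
  obtain ⟨C, hC, hb⟩ := h τ κ δ hτ hκ hδ hθ
  refine ⟨C, hC, fun Ω _ μ E hi hE R hR => (measure_mono ?_).trans (hb μ E hi hE R hR)⟩
  intro ω hω
  by_contra hcon
  apply hω
  intro n x y z hn hx hy hz hxy
  by_contra hnot
  rw [not_or] at hnot
  obtain ⟨hnr, hlarge⟩ := hnot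
  have hX : x / z ≠ 0 := div_ne_zero hx hz
  have hY : y / z ≠ 0 := div_ne_zero hy hz
  have hXY : (x / z) ^ n + (y / z) ^ n = 1 := by
    rw [div_pow, div_pow, ← add_div, hxy, div_self (pow_ne_zero _ hz)]
  by_cases hne : (sp3 ⟨(x / z) ^ n, qow_ne hX hY hXY⟩).Nonempty
  · refine hcon ⟨n, x / z, y / z, hX, hY, hXY, hn, hne, ?_⟩
    have hl := not_lt.1 hlarge
    rw [← logN_scale hz, ← logN_scale hz,
      logN_eq hn hX hY hXY Set.univ (s := sp3 ⟨(x / z) ^ n, qow_ne hX hY hXY⟩)
        (fun v => by simp),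
      logN_eq hn hX hY hXY {v | R ≤ norm v ∧ ω ∈ E v}
        (s := (sp3 ⟨(x / z) ^ n, qow_ne hX hY hXY⟩).filter fun v => R ≤ norm v ∧ ω ∈ E v)
        (fun v => by simp [Finset.mem_filter]),
      ← Real.log_rpow (nn_pos _),
      Real.log_le_log_iff (Real.rpow_pos_of_pos (nn_pos _) _) (nn_pos _)] at hl
    refine hl.trans (le_of_eq ?_)
    congr 1
  · rw [Finset.not_nonempty_iff_eq_empty] at hne
    have hu : ∀ v : Pr K, v.valuation K (x / z) = 1 ∧ v.valuation K (y / z) = 1 := by
      intro v
      by_contra hv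
      have := (mem_sp3 hn hX hY hXY v).2 hv
      rw [hne] at this
      exact absurd this (Finset.notMem_empty v)
    have hux : UnitAll (x / z) := fun v => (hu v).1
    have huy : UnitAll (y / z) := fun v => (hu v).2
    exact hnr ⟨Pool.Agent.X61.RI.quad_root h2 hX hY hux huy (n := n) (by omega) hXY,
      Pool.Agent.X61.RI.quad_root h2 hY hX huy hux (n := n) (by omega)
        (by rw [add_comm]; exact hXY)⟩

end Pool.Agent.Results.MP_50a406_nt.RandomPrimesAllExponents
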