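import Pool.Agent.X5.SDK.Ht
import Pool.Agent.W7.FH.Qm

/-!
Fermat's equation over quadratic fields has no nontrivial solutions with small digits.

Let `K` be a quadratic field, `b` an integer of `K`, and let `x = f(b)`, `y = g(b)`, `z = h(b)` be
nonzero integers of `K` written in base `b` with digits (coefficients of `f, g, h`) in the ring of
integers, the digits of each having sum of absolute values at most `H` at each infinite place. If
`|b| > 3 H ^ n` at each infinite place (`n ≥ 3`) and `x ^ n + y ^ n = z ^ n`, then all digit triples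
are proportional to one solution of height at most `H ^ 2`. If moreover `n = m k` with `k ≥ 5` prime
to `6` and `H ^ (2 m) < 2 ^ (k - 2)`, then `x / z` and `y / z` are roots of unity, and the solution is
trivial if `m = 1`.
-/

set_option autoImplicit false

namespace Pool.Agent.Results.MP_50a406_nt.SmallDigits

open NumberField Polynomial

/-- sum of the absolute values of the digits at the infinite place `v` -/
noncomputable def digitSum {K : Type} [Field K] [NumberField K] (v : InfinitePlace K)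
    (f : (𝓞 K)[X]) : ℝ :=
  ∑ i ∈ Finset.range (f.natDegree + 1), v ((f.coeff i : 𝓞 K) : K)

theorem result (K : Type) [Field K] [NumberField K] (hK : Module.finrank ℚ K = 2)
    (n : ℕ) (hn : 3 ≤ n) (b : 𝓞 K) (f g h : (𝓞 K)[X]) (H : ℝ)
    (hd : ∀ v : InfinitePlace K, digitSum v f ≤ H ∧ digitSum v g ≤ H ∧ digitSum v h ≤ H)
    (hb : ∀ v : InfinitePlace K, 3 * H ^ n < v (b : K))
    (hf : f.eval b ≠ 0) (hg : g.eval b ≠ 0) (hh : h.eval b ≠ 0)
    (he : f.eval b ^ n + g.eval b ^ n = h.eval b ^ n) :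
    (∃ (x y z : K) (w : K[X]), x ≠ 0 ∧ y ≠ 0 ∧ z ≠ 0 ∧ x ^ n + y ^ n = z ^ n ∧
      (∀ i, ((f.coeff i : 𝓞 K) : K) = x * w.coeff i ∧ ((g.coeff i : 𝓞 K) : K) = y * w.coeff i ∧
        ((h.coeff i : 𝓞 K) : K) = z * w.coeff i) ∧
      Height.mulHeight ![x, y, z] ≤ H ^ 2) ∧
    (∀ m k : ℕ, n = m * k → 5 ≤ k → k.Coprime 6 → H ^ (2 * m) < 2 ^ (k - 2) →
      ∃ ζ : K, IsPrimitiveRoot ζ 6 ∧
        ((g.eval b : 𝓞 K) : K) ^ m = ((f.eval b : 𝓞 K) : K) ^ m * ζ ^ 2 ∧
        ((h.eval b : 𝓞 K) : K) ^ m = ((f.eval b : 𝓞 K) : K) ^ m * ζ) := by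
  have hinj := FaithfulSMul.algebraMap_injective (𝓞 K) K
  have hds : ∀ (v : InfinitePlace K) (p : (𝓞 K)[X]),
      Pool.Agent.X5.SDK.len v.1 (Pool.Agent.X5.SDK.mp p) = digitSum v p := by
    intro v p
    unfold Pool.Agent.X5.SDK.len digitSum
    rw [Pool.Agent.X5.SDK.mp, natDegree_map_eq_of_injective hinj]
    exact Finset.sum_congr rfl fun i _ => by rw [coeff_map]; rfl
  obtain ⟨x, y, z, w, hx, hy, hz, hxyz, e1, e2, e3, h1, h2⟩ :=
    Pool.Agent.X5.SDK.fermat_main n hn b f g h H (fun v => (hds v f).trans_le (hd v).1)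
      (fun v => (hds v g).trans_le (hd v).2.1) (fun v => (hds v h).trans_le (hd v).2.2) hb
      hf hg hh he
  rw [hK] at h1
  have hc : ∀ (p : (𝓞 K)[X]) (t : K), Pool.Agent.X5.SDK.mp p = C t * w → ∀ i,
      ((p.coeff i : 𝓞 K) : K) = t * w.coeff i := by
    intro p t hp i
    rw [← coeff_C_mul, ← hp, Pool.Agent.X5.SDK.mp, coeff_map]
  refine ⟨⟨x, y, z, w, hx, hy, hz, hxyz,
    fun i => ⟨hc f x e1 i, hc g y e2 i, hc h z e3 i⟩, h1⟩, ?_⟩
  intro m k hmk h5 h6 hH
  have hne : ∀ p : (𝓞 K)[X], p.eval b ≠ 0 → ((p.eval b : 𝓞 K) : K) ≠ 0 := by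
    intro p hp h0
    exact hp (by exact_mod_cast h0)
  have heK : (((f.eval b : 𝓞 K) : K) ^ m) ^ k + (((g.eval b : 𝓞 K) : K) ^ m) ^ k =
      (((h.eval b : 𝓞 K) : K) ^ m) ^ k := by
    rw [← pow_mul, ← pow_mul, ← pow_mul, ← hmk]
    exact_mod_cast congrArg (fun t : 𝓞 K => (t : K)) he
  rcases Pool.Agent.W7.FH.quad_final hK k h5 h6 _ _ _ heK (pow_ne_zero m (hne f hf))
    (pow_ne_zero m (hne g hg)) (pow_ne_zero m (hne h hh)) with h3 | h3
  · exact h3
  · have h4 := h3.2.1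
    have h5 : (![((f.eval b : 𝓞 K) : K) ^ m, ((g.eval b : 𝓞 K) : K) ^ m,
        ((h.eval b : 𝓞 K) : K) ^ m] : Fin 3 → K) =
        ![((f.eval b : 𝓞 K) : K), ((g.eval b : 𝓞 K) : K), ((h.eval b : 𝓞 K) : K)] ^ m := by
      funext j
      fin_cases j <;> rfl
    rw [h5, Height.mulHeight_pow, h2] at h4
    have h6 : Height.mulHeight ![x, y, z] ^ m ≤ H ^ (2 * m) := by
      rw [pow_mul]
      exact pow_le_pow_left₀ (zero_le_one.trans (Height.one_le_mulHeight _)) h1 m
    exact absurd (h4.trans h6) (not_le.2 hH)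

end Pool.Agent.Results.MP_50a406_nt.SmallDigits
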